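import Mathlib
import Pool.Agent.Lib_MP_ca431a_cb.Defs

/-!
# An invariant 2-cocycle on the common basis complex of `R^3`

`ρ : R →+* A` is a ring homomorphism into a ring of characteristic two which sends every unit to
`1`.  We construct an `A`-valued 2-cocycle on `CB_3(R)`.
-/

namespace Pool.Agent.RognesDis

open Module Submodule

variable {R A : Type*} [CommRing R] [CommRing A]

/-- the determinant of three vectors -/
def det3 {S : Type*} [CommRing S] (x y z : Fin 3 → S) : S :=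
  (x 1 * y 2 - x 2 * y 1) * z 0 + (x 2 * y 0 - x 0 * y 2) * z 1 + (x 0 * y 1 - x 1 * y 0) * z 2

/-- coordinatewise image of a vector -/
def red (ρ : R →+* A) (v : Fin 3 → R) : Fin 3 → A := fun i => ρ (v i)

theorem red_add (ρ : R →+* A) (v w : Fin 3 → R) : red ρ (v + w) = red ρ v + red ρ w := by
  funext i; simp [red]

theorem red_smul (ρ : R →+* A) (c : R) (v : Fin 3 → R) : red ρ (c • v) = ρ c • red ρ v := by
  funext i; simp [red]

theorem det3_red (ρ : R →+* A) (x y z : Fin 3 → R) :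
    det3 (red ρ x) (red ρ y) (red ρ z) = ρ (det3 x y z) := by
  simp [det3, red]

theorem isUnit_det3 (B : Basis (Fin 3) R (Fin 3 → R)) : IsUnit (det3 (B 0) (B 1) (B 2)) := by
  have h := (Pi.basisFun R (Fin 3)).isUnit_det B
  rw [Basis.det_apply, Matrix.det_fin_three] at h
  convert h using 1
  simp [Basis.toMatrix_apply, det3]
  ring

variable (ρ : R →+* A)

def VecSpec (a : Submodule R (Fin 3 → R)) (v : Fin 3 → A) : Prop :=
  ∀ B : Basis (Fin 3) R (Fin 3 → R), a = span R {B 0} → red ρ (B 0) = v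

def RefSpec (P : Submodule R (Fin 3 → R)) (r : Fin 3 → A) : Prop :=
  ∀ B : Basis (Fin 3) R (Fin 3 → R), P = span R {B 0, B 1} →
    ∃ α β : A, r = red ρ (B 2) - α • red ρ (B 0) - β • red ρ (B 1)

def FlgSpec (P a : Submodule R (Fin 3 → R)) (f : Fin 3 → A) : Prop :=
  ∀ B : Basis (Fin 3) R (Fin 3 → R), P = span R {B 0, B 1} → a = span R {B 0} →
    ∃ κ : A, f = red ρ (B 1) - κ • red ρ (B 0)

noncomputable def vec (a : Submodule R (Fin 3 → R)) : Fin 3 → A := Classical.epsilon (VecSpec ρ a)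

noncomputable def ref (P : Submodule R (Fin 3 → R)) : Fin 3 → A := Classical.epsilon (RefSpec ρ P)

noncomputable def flg (P a : Submodule R (Fin 3 → R)) : Fin 3 → A :=
  Classical.epsilon (FlgSpec ρ P a)

theorem repr_of_mem_pair (B : Basis (Fin 3) R (Fin 3 → R)) {v : Fin 3 → R}
    (hv : v ∈ span R {B 0, B 1}) : B.repr v 2 = 0 := by
  rw [mem_span_pair] at hv
  obtain ⟨c, d, rfl⟩ := hv
  simp

theorem repr_of_mem_single (B : Basis (Fin 3) R (Fin 3 → R)) {v : Fin 3 → R}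
    (hv : v ∈ span R {B 0}) : B.repr v 1 = 0 ∧ B.repr v 2 = 0 := by
  rw [mem_span_singleton] at hv
  obtain ⟨c, rfl⟩ := hv
  simp

theorem expand (B : Basis (Fin 3) R (Fin 3 → R)) (v : Fin 3 → R) :
    v = B.repr v 0 • B 0 + B.repr v 1 • B 1 + B.repr v 2 • B 2 := by
  have h := B.sum_repr v
  rw [Fin.sum_univ_three] at h
  exact h.symm

theorem red_expand (B : Basis (Fin 3) R (Fin 3 → R)) (v : Fin 3 → R) :
    red ρ v = ρ (B.repr v 0) • red ρ (B 0) + ρ (B.repr v 1) • red ρ (B 1)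
      + ρ (B.repr v 2) • red ρ (B 2) := by
  conv_lhs => rw [expand B v]
  simp only [red_add, red_smul]

variable {ρ} (hρ : ∀ u : R, IsUnit u → ρ u = 1)

include hρ

theorem vecSpec (B : Basis (Fin 3) R (Fin 3 → R)) : VecSpec ρ (span R {B 0}) (red ρ (B 0)) := by
  intro B' h
  have h1 : B' 0 ∈ span R {B 0} := by rw [h]; exact mem_span_singleton_self _
  have h2 : B 0 ∈ span R {B' 0} := by rw [← h]; exact mem_span_singleton_self _
  obtain ⟨c, hc⟩ := mem_span_singleton.1 h1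
  obtain ⟨c', hc'⟩ := mem_span_singleton.1 h2
  have h3 : B.repr (B 0) 0 = c' * c := by
    conv_lhs => rw [← hc', ← hc]
    simp
  have h4 : IsUnit c := by
    refine IsUnit.of_mul_eq_one c' ?_
    rw [mul_comm, ← h3]
    simp
  rw [← hc, red_smul, hρ c h4, one_smul]

theorem refSpec (B : Basis (Fin 3) R (Fin 3 → R)) :
    RefSpec ρ (span R {B 0, B 1}) (red ρ (B 2)) := by
  intro B' h
  have h0 : B.repr (B' 0) 2 = 0 := repr_of_mem_pair B (by rw [h]; exact subset_span (by simp))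
  have h1 : B.repr (B' 1) 2 = 0 := repr_of_mem_pair B (by rw [h]; exact subset_span (by simp))
  have h2 : B.repr (B 2) 2 = B'.repr (B 2) 2 * B.repr (B' 2) 2 := by
    conv_lhs => rw [expand B' (B 2)]
    simp [h0, h1]
  have h4 : IsUnit (B'.repr (B 2) 2) := by
    refine IsUnit.of_mul_eq_one (B.repr (B' 2) 2) ?_
    rw [← h2]
    simp
  refine ⟨-ρ (B'.repr (B 2) 0), -ρ (B'.repr (B 2) 1), ?_⟩
  rw [red_expand ρ B' (B 2), hρ _ h4]
  simp only [one_smul, neg_smul]
  abel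

theorem flgSpec (B : Basis (Fin 3) R (Fin 3 → R)) :
    FlgSpec ρ (span R {B 0, B 1}) (span R {B 0}) (red ρ (B 1)) := by
  intro B' h h'
  have h0 := repr_of_mem_single B (v := B' 0) (by rw [h']; exact mem_span_singleton_self _)
  have h2 : B'.repr (B 1) 2 = 0 := repr_of_mem_pair B' (by rw [← h]; exact subset_span (by simp))
  have h3 : B.repr (B 1) 1 = B'.repr (B 1) 1 * B.repr (B' 1) 1 := by
    conv_lhs => rw [expand B' (B 1)]
    simp [h0.1, h2]
  have h4 : IsUnit (B'.repr (B 1) 1) := by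
    refine IsUnit.of_mul_eq_one (B.repr (B' 1) 1) ?_
    rw [← h3]
    simp
  refine ⟨-ρ (B'.repr (B 1) 0), ?_⟩
  rw [red_expand ρ B' (B 1), hρ _ h4, h2]
  simp only [one_smul, neg_smul, map_zero, zero_smul]
  abel

theorem vec_eq (B : Basis (Fin 3) R (Fin 3 → R)) : vec ρ (span R {B 0}) = red ρ (B 0) :=
  ((Classical.epsilon_spec (p := VecSpec ρ (span R {B 0})) ⟨_, vecSpec hρ B⟩) B rfl).symm

theorem ref_eq (B : Basis (Fin 3) R (Fin 3 → R)) :
    ∃ α β : A, ref ρ (span R {B 0, B 1}) = red ρ (B 2) - α • red ρ (B 0) - β • red ρ (B 1) :=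
  (Classical.epsilon_spec (p := RefSpec ρ (span R {B 0, B 1})) ⟨_, refSpec hρ B⟩) B rfl

theorem flg_eq (B : Basis (Fin 3) R (Fin 3 → R)) :
    ∃ κ : A, flg ρ (span R {B 0, B 1}) (span R {B 0}) = red ρ (B 1) - κ • red ρ (B 0) :=
  (Classical.epsilon_spec (p := FlgSpec ρ (span R {B 0, B 1}) (span R {B 0}))
    ⟨_, flgSpec hρ B⟩) B rfl rfl

omit hρ

variable (ρ)

/-- edge contribution -/
noncomputable def ee (a b : Submodule R (Fin 3 → R)) (w : Fin 3 → A) : A :=
  det3 (vec ρ a + vec ρ b) w (ref ρ (a ⊔ b))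

noncomputable def cc (a b c : Submodule R (Fin 3 → R)) : A :=
  ee ρ a b (vec ρ c) + ee ρ b c (vec ρ a) + ee ρ a c (vec ρ b)

noncomputable def tp (P a l : Submodule R (Fin 3 → R)) : A :=
  ee ρ a l (flg ρ P a) + det3 (vec ρ a) (vec ρ l) (ref ρ P)

noncomputable def th (P a b : Submodule R (Fin 3 → R)) : A :=
  det3 (vec ρ b) (flg ρ P a) (ref ρ P) + det3 (vec ρ a) (flg ρ P b) (ref ρ P)

variable {ρ}

include hρ

/-- the key identity -/
theorem key (B : Basis (Fin 3) R (Fin 3 → R)) :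
    cc ρ (span R {B 0}) (span R {B 1}) (span R {B 2}) =
      th ρ (span R {B 0, B 1}) (span R {B 0}) (span R {B 1}) +
      tp ρ (span R {B 0, B 1}) (span R {B 0}) (span R {B 2}) +
      tp ρ (span R {B 0, B 1}) (span R {B 1}) (span R {B 2}) := by
  have e01 : (Equiv.swap (0 : Fin 3) 1) 0 = 1 := by decide
  have e01' : (Equiv.swap (0 : Fin 3) 1) 1 = 0 := by decide
  have e01'' : (Equiv.swap (0 : Fin 3) 1) 2 = 2 := by decide
  have e02 : (Equiv.swap (0 : Fin 3) 2) 0 = 2 := by decide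
  have e02' : (Equiv.swap (0 : Fin 3) 2) 1 = 1 := by decide
  have e02'' : (Equiv.swap (0 : Fin 3) 2) 2 = 0 := by decide
  have e12 : (Equiv.swap (1 : Fin 3) 2) 0 = 0 := by decide
  have e12' : (Equiv.swap (1 : Fin 3) 2) 1 = 2 := by decide
  have e12'' : (Equiv.swap (1 : Fin 3) 2) 2 = 1 := by decide
  -- vectors
  have v0 := vec_eq hρ B
  have v1 := vec_eq hρ (B.reindex (Equiv.swap 0 1))
  have v2 := vec_eq hρ (B.reindex (Equiv.swap 0 2))
  obtain ⟨α₁, β₁, r1⟩ := ref_eq hρ B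
  obtain ⟨α₂, β₂, r2⟩ := ref_eq hρ (B.reindex (Equiv.swap 1 2))
  obtain ⟨β₃, α₃, r3⟩ := ref_eq hρ (B.reindex (Equiv.swap 0 2))
  obtain ⟨κ, f1⟩ := flg_eq hρ B
  obtain ⟨κ', f2⟩ := flg_eq hρ (B.reindex (Equiv.swap 0 1))
  simp only [Basis.coe_reindex, Function.comp_apply, Equiv.symm_swap, e01, e01', e02, e02',
    e02'', e12, e12', e12''] at v1 v2 r2 r3 f2
  rw [Set.pair_comm (B 1) (B 0)] at f2
  rw [Set.pair_comm (B 2) (B 1)] at r3
  have s01 : span R {B 0} ⊔ span R {B 1} = span R {B 0, B 1} := by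
    rw [← span_union]; rfl
  have s12 : span R {B 1} ⊔ span R {B 2} = span R {B 1, B 2} := by
    rw [← span_union]; rfl
  have s02 : span R {B 0} ⊔ span R {B 2} = span R {B 0, B 2} := by
    rw [← span_union]; rfl
  unfold cc th tp ee
  rw [s01, s12, s02, v0, v1, v2, r1, r2, r3, f1, f2]
  simp only [det3, Pi.add_apply, Pi.sub_apply, Pi.smul_apply, smul_eq_mul]
  ring

end Pool.Agent.RognesDis
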