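import Mathlib
import Pool.Agent.Lib_MP_ca431a_dis.Cochain

/-!
# The cocycle on the six lines and planes of a basis
-/

namespace Pool.Agent.RognesDis

open Module Submodule

variable {R A : Type*} [CommRing R] [CommRing A]

/-! ### the lines and planes of a basis -/

def ln (B : Basis (Fin 3) R (Fin 3 → R)) (i : Fin 3) : Submodule R (Fin 3 → R) := span R {B i}

def pl (B : Basis (Fin 3) R (Fin 3 → R)) (i : Fin 3) : Submodule R (Fin 3 → R) :=
  span R (B '' {i}ᶜ)

theorem mem_pl (B : Basis (Fin 3) R (Fin 3 → R)) (i : Fin 3) (v : Fin 3 → R) :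
    v ∈ pl B i ↔ B.repr v i = 0 := by
  unfold pl
  rw [Basis.mem_span_image]
  constructor
  · intro h
    by_contra h'
    exact (h (by simpa using h')) rfl
  · intro h j hj
    simp only [Set.mem_compl_iff, Set.mem_singleton_iff]
    rintro rfl
    simp [h] at hj

theorem mem_ln (B : Basis (Fin 3) R (Fin 3 → R)) (i : Fin 3) (v : Fin 3 → R) :
    v ∈ ln B i ↔ ∀ j, j ≠ i → B.repr v j = 0 := by
  unfold ln
  rw [← Set.image_singleton, Basis.mem_span_image]
  constructor
  · intro h j hj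
    by_contra h'
    exact hj (h (by simpa using h'))
  · intro h j hj
    by_contra h'
    simp [h j h'] at hj

theorem self_mem_ln (B : Basis (Fin 3) R (Fin 3 → R)) (i : Fin 3) : B i ∈ ln B i :=
  mem_span_singleton_self _

theorem ln_le_pl [Nontrivial R] (B : Basis (Fin 3) R (Fin 3 → R)) (i j : Fin 3) :
    ln B i ≤ pl B j ↔ i ≠ j := by
  constructor
  · rintro h rfl
    have := (mem_pl B i _).1 (h (self_mem_ln B i))
    simp at this
  · intro h
    unfold ln
    rw [span_singleton_le_iff_mem, mem_pl]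
    simp [h]

theorem ln_inj [Nontrivial R] (B : Basis (Fin 3) R (Fin 3 → R)) (i j : Fin 3) :
    ln B i = ln B j ↔ i = j := by
  constructor
  · intro h
    by_contra h'
    have := (mem_ln B j (B i)).1 (h ▸ self_mem_ln B i) i h'
    simp at this
  · rintro rfl; rfl

theorem pl_inj [Nontrivial R] (B : Basis (Fin 3) R (Fin 3 → R)) (i j : Fin 3) :
    pl B i = pl B j ↔ i = j := by
  constructor
  · intro h
    by_contra h'
    have := (ln_le_pl B j i).2 (Ne.symm h')
    rw [h] at this
    exact (ln_le_pl B j j).1 this rfl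
  · rintro rfl; rfl

theorem pl_inf_pl (B : Basis (Fin 3) R (Fin 3 → R)) {i j k : Fin 3} (hij : i ≠ j) (hki : k ≠ i)
    (hkj : k ≠ j) : pl B i ⊓ pl B j = ln B k := by
  ext v
  rw [mem_inf, mem_pl, mem_pl, mem_ln]
  constructor
  · rintro ⟨h1, h2⟩ l hl
    have : l = i ∨ l = j := by omega
    rcases this with rfl | rfl
    · exact h1
    · exact h2
  · intro h
    exact ⟨h i hki.symm, h j hkj.symm⟩

/-- cyclic submodules -/
def isL (W : Submodule R (Fin 3 → R)) : Prop := ∃ v, W = span R {v}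

theorem isL_ln (B : Basis (Fin 3) R (Fin 3 → R)) (i : Fin 3) : isL (ln B i) := ⟨_, rfl⟩

theorem not_isL_pl [Nontrivial R] (B : Basis (Fin 3) R (Fin 3 → R)) (i : Fin 3) :
    ¬ isL (pl B i) := by
  rintro ⟨v, hv⟩
  obtain ⟨j, k, hj, hk, hjk⟩ :=
    (by decide : ∀ i : Fin 3, ∃ j k : Fin 3, j ≠ i ∧ k ≠ i ∧ j ≠ k) i
  have h1 : B j ∈ span R {v} := by rw [← hv, mem_pl]; simp [hj]
  have h2 : B k ∈ span R {v} := by rw [← hv, mem_pl]; simp [hk]
  obtain ⟨c, hc⟩ := mem_span_singleton.1 h1
  obtain ⟨d, hd⟩ := mem_span_singleton.1 h2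
  have h3 : d • B j = c • B k := by rw [← hc, ← hd, smul_smul, smul_smul, mul_comm]
  have h4 := congrArg (fun w => B.repr w j) h3
  simp [hjk.symm] at h4
  rw [h4, zero_smul] at hd
  exact B.ne_zero k hd.symm

/-! ### symmetry -/

variable (ρ : R →+* A)

theorem ee_comm (a b : Submodule R (Fin 3 → R)) (w : Fin 3 → A) : ee ρ a b w = ee ρ b a w := by
  unfold ee
  rw [add_comm, sup_comm]

theorem cc_swap (a b c : Submodule R (Fin 3 → R)) : cc ρ a b c = cc ρ b a c := by
  unfold cc
  rw [ee_comm ρ a b]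
  ring

theorem cc_rot (a b c : Submodule R (Fin 3 → R)) : cc ρ a b c = cc ρ b c a := by
  unfold cc
  rw [ee_comm ρ b a, ee_comm ρ c a]
  ring

theorem th_comm (P a b : Submodule R (Fin 3 → R)) : th ρ P a b = th ρ P b a := by
  unfold th
  ring

/-! ### the cochain -/

open Classical in
noncomputable def llp (P a b : Submodule R (Fin 3 → R)) : A :=
  if a ≤ P ∧ b ≤ P then th ρ P a b else if a ≤ P then tp ρ P a b else tp ρ P b a

open Classical in
noncomputable def lpp (l P Q : Submodule R (Fin 3 → R)) : A :=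
  if l ≤ P ∧ l ≤ Q then 0 else
    if l ≤ Q then tp ρ P (P ⊓ Q) l + th ρ Q l (P ⊓ Q) else tp ρ Q (P ⊓ Q) l + th ρ P l (P ⊓ Q)

noncomputable def ppp (P Q S : Submodule R (Fin 3 → R)) : A :=
  cc ρ (Q ⊓ S) (P ⊓ S) (P ⊓ Q) + th ρ P (P ⊓ Q) (P ⊓ S) + th ρ Q (P ⊓ Q) (Q ⊓ S)
    + th ρ S (P ⊓ S) (Q ⊓ S)

open Classical in
/-- the cochain -/
noncomputable def tt (U V W : Submodule R (Fin 3 → R)) : A :=
  if U = V ∨ V = W ∨ U = W then 0 else
  if isL U then
    if isL V then
      if isL W then cc ρ U V W else llp ρ W U V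
    else
      if isL W then llp ρ V U W else lpp ρ U V W
  else
    if isL V then
      if isL W then llp ρ U V W else lpp ρ V U W
    else
      if isL W then lpp ρ W U V else ppp ρ U V W

/-! ### the table -/

def third (i j : Fin 3) : Fin 3 := -(i + j)

theorem third_ne {i j : Fin 3} (h : i ≠ j) : third i j ≠ i ∧ third i j ≠ j := by
  revert i j; decide

def vC : Fin 7 → ZMod 2 := Pi.single 0 1

def vT (i : Fin 3) : Fin 7 → ZMod 2 := Pi.single ⟨1 + i.val, by omega⟩ 1

def vU (i j : Fin 3) : Fin 7 → ZMod 2 :=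
  if j = i + 1 then Pi.single ⟨4 + i.val, by omega⟩ 1
  else vC + vT i + Pi.single ⟨4 + i.val, by omega⟩ 1

def vllp (p a b : Fin 3) : Fin 7 → ZMod 2 :=
  if a ≠ p ∧ b ≠ p then vT p else if a ≠ p then vU p a else vU p b

def vlpp (l p q : Fin 3) : Fin 7 → ZMod 2 :=
  if l ≠ p ∧ l ≠ q then 0 else
    if l ≠ q then vU p (third p q) + vT q else vU q (third p q) + vT p

def tau (m n k : Bool × Fin 3) : Fin 7 → ZMod 2 :=
  if m = n ∨ n = k ∨ m = k then 0 else
    match m.1, n.1, k.1 with
    | false, false, false => vC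
    | false, false, true => vllp k.2 m.2 n.2
    | false, true, false => vllp n.2 m.2 k.2
    | false, true, true => vlpp m.2 n.2 k.2
    | true, false, false => vllp m.2 n.2 k.2
    | true, false, true => vlpp n.2 m.2 k.2
    | true, true, false => vlpp k.2 m.2 n.2
    | true, true, true => vC + vT 0 + vT 1 + vT 2

theorem tau_cocycle : ∀ m n k l : Bool × Fin 3,
    tau n k l + tau m k l + tau m n l + tau m n k = 0 := by
  decide +kernel


section Val

variable {ρ} (hρ : ∀ u : R, IsUnit u → ρ u = 1)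

include hρ

/-- the key identity for an arbitrary labelling -/
theorem key' (B : Basis (Fin 3) R (Fin 3 → R)) {i j k : Fin 3} (hij : i ≠ j) (hik : i ≠ k)
    (hjk : j ≠ k) :
    cc ρ (ln B i) (ln B j) (ln B k) =
      th ρ (pl B k) (ln B i) (ln B j) + tp ρ (pl B k) (ln B i) (ln B k) +
      tp ρ (pl B k) (ln B j) (ln B k) := by
  obtain ⟨p, h0, h1, h2⟩ := (by decide : ∀ i j k : Fin 3, i ≠ j → i ≠ k → j ≠ k →
    ∃ p : Equiv.Perm (Fin 3), p 0 = i ∧ p 1 = j ∧ p 2 = k) i j k hij hik hjk
  have h := key hρ (B.reindex p.symm)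
  simp only [Basis.coe_reindex, Function.comp_apply, Equiv.symm_symm, h0, h1, h2] at h
  have h3 : pl B k = span R {B i, B j} := by
    unfold pl
    congr 1
    have : ({k}ᶜ : Set (Fin 3)) = {i, j} := by
      ext x
      simp only [Set.mem_compl_iff, Set.mem_singleton_iff, Set.mem_insert_iff]
      omega
    rw [this, Set.image_pair]
  rw [h3]
  exact h

end Val

end Pool.Agent.RognesDis
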