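import Mathlib
import Pool.Agent.Lib_MP_ca431a_dis.Table

/-!
# The cocycle identity
-/

namespace Pool.Agent.RognesDis

open Module Submodule

variable {R A : Type*} [CommRing R] [CommRing A] [Algebra (ZMod 2) A]

variable (ρ : R →+* A)

noncomputable def vals (B : Basis (Fin 3) R (Fin 3 → R)) : Fin 7 → A :=
  ![cc ρ (ln B 0) (ln B 1) (ln B 2),
    th ρ (pl B 0) (ln B 1) (ln B 2),
    th ρ (pl B 1) (ln B 2) (ln B 0),
    th ρ (pl B 2) (ln B 0) (ln B 1),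
    tp ρ (pl B 0) (ln B 1) (ln B 0),
    tp ρ (pl B 1) (ln B 2) (ln B 1),
    tp ρ (pl B 2) (ln B 0) (ln B 2)]

noncomputable def LL (B : Basis (Fin 3) R (Fin 3 → R)) : (Fin 7 → ZMod 2) →+ A where
  toFun v := ∑ k, v k • vals ρ B k
  map_zero' := by simp
  map_add' v w := by simp [add_smul, Finset.sum_add_distrib]

theorem LL_apply (B : Basis (Fin 3) R (Fin 3 → R)) (v : Fin 7 → ZMod 2) :
    LL ρ B v = ∑ k, v k • vals ρ B k := rfl

theorem LL_single (B : Basis (Fin 3) R (Fin 3 → R)) (k : Fin 7) :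
    LL ρ B (Pi.single k 1) = vals ρ B k := by
  rw [LL_apply, Finset.sum_eq_single k]
  · simp
  · intro b _ hb
    simp [hb]
  · simp

theorem LL_vC (B : Basis (Fin 3) R (Fin 3 → R)) {i j k : Fin 3} (hij : i ≠ j) (hik : i ≠ k)
    (hjk : j ≠ k) : LL ρ B vC = cc ρ (ln B i) (ln B j) (ln B k) := by
  unfold vC
  rw [LL_single]
  change cc ρ (ln B 0) (ln B 1) (ln B 2) = _
  have : (i = 0 ∧ j = 1 ∧ k = 2) ∨ (i = 0 ∧ j = 2 ∧ k = 1) ∨ (i = 1 ∧ j = 0 ∧ k = 2) ∨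
      (i = 1 ∧ j = 2 ∧ k = 0) ∨ (i = 2 ∧ j = 0 ∧ k = 1) ∨ (i = 2 ∧ j = 1 ∧ k = 0) := by
    revert i j k; decide
  rcases this with h | h | h | h | h | h <;> obtain ⟨rfl, rfl, rfl⟩ := h
  · rfl
  · rw [cc_rot ρ (ln B 0) (ln B 2) (ln B 1), cc_rot ρ (ln B 2) (ln B 1) (ln B 0), cc_swap]
  · rw [cc_swap]
  · rw [cc_rot]
  · rw [cc_rot, cc_rot]
  · rw [cc_swap, cc_rot, cc_rot, ← cc_rot, cc_rot]

theorem LL_vT (B : Basis (Fin 3) R (Fin 3 → R)) {i j k : Fin 3} (hij : i ≠ j) (hik : i ≠ k)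
    (hjk : j ≠ k) : LL ρ B (vT i) = th ρ (pl B i) (ln B j) (ln B k) := by
  unfold vT
  rw [LL_single]
  have : (i = 0 ∧ j = 1 ∧ k = 2) ∨ (i = 0 ∧ j = 2 ∧ k = 1) ∨ (i = 1 ∧ j = 0 ∧ k = 2) ∨
      (i = 1 ∧ j = 2 ∧ k = 0) ∨ (i = 2 ∧ j = 0 ∧ k = 1) ∨ (i = 2 ∧ j = 1 ∧ k = 0) := by
    revert i j k; decide
  rcases this with h | h | h | h | h | h <;> obtain ⟨rfl, rfl, rfl⟩ := h
  · rfl
  · rw [th_comm]; rfl
  · rw [th_comm]; rfl
  · rfl
  · rfl
  · rw [th_comm]; rfl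

theorem two_smul_zero (x : A) : x + x = 0 := by
  have h : ((2 : ZMod 2)) • x = 0 := by
    rw [show (2 : ZMod 2) = 0 by decide, zero_smul]
  rwa [show (2 : ZMod 2) = 1 + 1 by decide, add_smul, one_smul] at h

section

variable {ρ} (hρ : ∀ u : R, IsUnit u → ρ u = 1)

include hρ

theorem LL_vU (B : Basis (Fin 3) R (Fin 3 → R)) {i j : Fin 3} (hij : i ≠ j) :
    LL ρ B (vU i j) = tp ρ (pl B i) (ln B j) (ln B i) := by
  have h0 : ∀ i : Fin 3, LL ρ B (Pi.single ⟨4 + i.val, by omega⟩ 1) =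
      tp ρ (pl B i) (ln B (i + 1)) (ln B i) := by
    intro i
    rw [LL_single]
    fin_cases i <;> rfl
  unfold vU
  by_cases hj : j = i + 1
  · subst hj
    rw [if_pos rfl, h0]
  · rw [if_neg hj, map_add, map_add, h0]
    have h1 : i + 1 ≠ j := fun h => hj h.symm
    have h2 : i ≠ i + 1 := (by decide : ∀ i : Fin 3, i ≠ i + 1) i
    rw [LL_vC ρ B (i := i + 1) (j := j) (k := i) h1 h2.symm hij.symm,
      LL_vT ρ B (i := i) (j := i + 1) (k := j) h2 hij h1, key' hρ B h1 h2.symm hij.symm]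
    have e1 := two_smul_zero (th ρ (pl B i) (ln B (i + 1)) (ln B j))
    have e2 := two_smul_zero (tp ρ (pl B i) (ln B (i + 1)) (ln B i))
    linear_combination e1 + e2

/-- value of the cochain on the lines and planes of a basis -/
def val (B : Basis (Fin 3) R (Fin 3 → R)) (m : Bool × Fin 3) : Submodule R (Fin 3 → R) :=
  if m.1 then pl B m.2 else ln B m.2

omit hρ in
theorem ln_ne_pl [Nontrivial R] (B : Basis (Fin 3) R (Fin 3 → R)) (i j : Fin 3) :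
    ln B i ≠ pl B j := fun h => not_isL_pl B j (h ▸ isL_ln B i)

theorem llp_eq [Nontrivial R] (B : Basis (Fin 3) R (Fin 3 → R)) {p a b : Fin 3} (hab : a ≠ b) :
    llp ρ (pl B p) (ln B a) (ln B b) = LL ρ B (vllp p a b) := by
  unfold llp vllp
  simp only [ln_le_pl]
  by_cases h1 : a ≠ p ∧ b ≠ p
  · rw [if_pos h1, if_pos h1, LL_vT ρ B h1.1.symm h1.2.symm hab]
  · rw [if_neg h1, if_neg h1]
    by_cases h2 : a ≠ p
    · have h3 : b = p := by
        by_contra h; exact h1 ⟨h2, h⟩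
      subst h3
      rw [if_pos h2, if_pos h2, LL_vU hρ B h2.symm]
    · rw [if_neg h2, if_neg h2]
      have h3 : a = p := not_not.1 h2
      subst h3
      rw [LL_vU hρ B hab]

theorem lpp_eq [Nontrivial R] (B : Basis (Fin 3) R (Fin 3 → R)) {l p q : Fin 3} (hpq : p ≠ q) :
    lpp ρ (ln B l) (pl B p) (pl B q) = LL ρ B (vlpp l p q) := by
  unfold lpp vlpp
  obtain ⟨t1, t2⟩ := third_ne hpq
  simp only [ln_le_pl, pl_inf_pl B hpq t1 t2]
  by_cases h1 : l ≠ p ∧ l ≠ q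
  · rw [if_pos h1, if_pos h1, map_zero]
  · rw [if_neg h1, if_neg h1]
    by_cases h2 : l ≠ q
    · have h3 : l = p := by
        by_contra h; exact h1 ⟨h, h2⟩
      subst h3
      rw [if_pos h2, if_pos h2, map_add, LL_vU hρ B t1.symm, LL_vT ρ B hpq.symm t2.symm t1.symm]
    · rw [if_neg h2, if_neg h2]
      have h3 : l = q := not_not.1 h2
      subst h3
      rw [map_add, LL_vU hρ B t2.symm, LL_vT ρ B hpq t1.symm t2.symm]

omit hρ in
theorem ppp_eq (B : Basis (Fin 3) R (Fin 3 → R)) {p q s : Fin 3} (hpq : p ≠ q)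
    (hps : p ≠ s) (hqs : q ≠ s) :
    ppp ρ (pl B p) (pl B q) (pl B s) = LL ρ B (vC + vT 0 + vT 1 + vT 2) := by
  unfold ppp
  rw [pl_inf_pl B hqs hpq hps, pl_inf_pl B hps hpq.symm hqs, pl_inf_pl B hpq hps.symm hqs.symm]
  have h : vC + vT 0 + vT 1 + vT 2 = vC + vT p + vT q + vT s := by
    have : (p = 0 ∧ q = 1 ∧ s = 2) ∨ (p = 0 ∧ q = 2 ∧ s = 1) ∨ (p = 1 ∧ q = 0 ∧ s = 2) ∨
        (p = 1 ∧ q = 2 ∧ s = 0) ∨ (p = 2 ∧ q = 0 ∧ s = 1) ∨ (p = 2 ∧ q = 1 ∧ s = 0) := by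
      revert p q s; decide
    rcases this with h | h | h | h | h | h <;> obtain ⟨rfl, rfl, rfl⟩ := h <;> abel
  rw [h]
  simp only [map_add]
  rw [LL_vC ρ B hpq hps hqs, LL_vT ρ B hps hpq hqs.symm, LL_vT ρ B hqs hpq.symm hps.symm,
    LL_vT ρ B hqs.symm hps.symm hpq.symm]

theorem tt_val [Nontrivial R] (B : Basis (Fin 3) R (Fin 3 → R)) (m n k : Bool × Fin 3) :
    tt ρ (val B m) (val B n) (val B k) = LL ρ B (tau m n k) := by
  have hinj : ∀ m n : Bool × Fin 3, val B m = val B n ↔ m = n := by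
    rintro ⟨b, i⟩ ⟨c, j⟩
    cases b <;> cases c <;> simp [val, ln_inj, pl_inj, ln_ne_pl, (ln_ne_pl B _ _).symm]
  unfold tt tau
  simp only [hinj]
  by_cases h : m = n ∨ n = k ∨ m = k
  · rw [if_pos h, if_pos h, map_zero]
  · rw [if_neg h, if_neg h]
    push Not at h
    obtain ⟨h1, h2, h3⟩ := h
    obtain ⟨b, i⟩ := m
    obtain ⟨c, j⟩ := n
    obtain ⟨d, l⟩ := k
    cases b <;> cases c <;> cases d <;>
      simp only [ne_eq, Prod.mk.injEq, true_and, not_false_eq_true, reduceCtorEq,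
        false_and] at h1 h2 h3 <;>
      simp only [val, isL_ln, not_isL_pl, if_true, if_false, Bool.false_eq_true]
    · rw [LL_vC ρ B h1 h3 h2]
    · rw [llp_eq hρ B h1]
    · rw [llp_eq hρ B h3]
    · rw [lpp_eq hρ B h2]
    · rw [llp_eq hρ B h2]
    · rw [lpp_eq hρ B h3]
    · rw [lpp_eq hρ B h1]
    · rw [ppp_eq B h1 h3 h2]

theorem cocycle_val [Nontrivial R] (B : Basis (Fin 3) R (Fin 3 → R)) (m n k l : Bool × Fin 3) :
    tt ρ (val B n) (val B k) (val B l) + tt ρ (val B m) (val B k) (val B l) +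
      tt ρ (val B m) (val B n) (val B l) + tt ρ (val B m) (val B n) (val B k) = 0 := by
  simp only [tt_val hρ B]
  rw [← map_add, ← map_add, ← map_add, tau_cocycle, map_zero]

end

end Pool.Agent.RognesDis
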