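import Mathlib
import Pool.Agent.Lib_MP_ca431a_dis.Cocycle

/-!
# The cocycle detects homology of `CB_3(R)`
-/

namespace Pool.Agent.RognesDis

open Module Submodule Pool.Agent.Rognes

variable {R A : Type*} [CommRing R] [CommRing A] [Algebra (ZMod 2) A]

theorem isCompl_ln_pl (B : Basis (Fin 3) R (Fin 3 → R)) (i : Fin 3) :
    IsCompl (ln B i) (pl B i) := by
  rw [isCompl_iff, disjoint_def, codisjoint_iff_exists_add_eq]
  constructor
  · intro x hx hy
    rw [mem_ln] at hx
    rw [mem_pl] at hy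
    apply B.repr.injective
    ext j
    by_cases h : j = i
    · subst h; simpa using hy
    · simpa using hx j h
  · intro v
    refine ⟨B.repr v i • B i, v - B.repr v i • B i, smul_mem _ _ (self_mem_ln B i), ?_, by abel⟩
    rw [mem_pl]
    simp

theorem exists_val (B : Basis (Fin 3) R (Fin 3 → R)) (W : Submodule R (Fin 3 → R))
    (h0 : W ≠ ⊥) (h1 : W ≠ ⊤) (s : Set (Fin 3)) (hs : W = span R (B '' s)) :
    ∃ m, W = val B m := by
  have key : s = ∅ ∨ s = Set.univ ∨ ∃ i, s = {i} ∨ s = {i}ᶜ := by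
    by_cases a0 : (0 : Fin 3) ∈ s <;> by_cases a1 : (1 : Fin 3) ∈ s <;>
      by_cases a2 : (2 : Fin 3) ∈ s
    · right; left; ext x; fin_cases x <;> simp_all
    · right; right; refine ⟨2, Or.inr ?_⟩; ext x; fin_cases x <;> simp_all
    · right; right; refine ⟨1, Or.inr ?_⟩; ext x; fin_cases x <;> simp_all
    · right; right; refine ⟨0, Or.inl ?_⟩; ext x; fin_cases x <;> simp_all
    · right; right; refine ⟨0, Or.inr ?_⟩; ext x; fin_cases x <;> simp_all
    · right; right; refine ⟨1, Or.inl ?_⟩; ext x; fin_cases x <;> simp_all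
    · right; right; refine ⟨2, Or.inl ?_⟩; ext x; fin_cases x <;> simp_all
    · left; ext x; fin_cases x <;> simp_all
  rcases key with rfl | rfl | ⟨i, rfl | rfl⟩
  · exact absurd (by rw [hs, Set.image_empty, span_empty]) h0
  · exact absurd (by rw [hs, Set.image_univ, B.span_eq]) h1
  · exact ⟨(false, i), by rw [hs, Set.image_singleton]; rfl⟩
  · exact ⟨(true, i), hs⟩

variable (ρ : R →+* A)

/-- the cochain on lists -/
noncomputable def tl : List (Submodule R (Fin 3 → R)) → A
  | [a, b, c] => tt ρ a b c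
  | _ => 0

/-- the functional on chains -/
noncomputable def Phi : (List (Submodule R (Fin 3 → R)) →₀ ℤ) →ₗ[ℤ] A :=
  Finsupp.linearCombination ℤ (tl ρ)

theorem Phi_single (l : List (Submodule R (Fin 3 → R))) (n : ℤ) :
    Phi ρ (Finsupp.single l n) = n • tl ρ l := by
  simp [Phi]

omit [CommRing R] in
theorem neg_eq_self' (x : A) : -x = x := by
  have := two_smul_zero x
  linear_combination -this

theorem boundary_single {X : Type*} (l : List X) (n : ℤ) :
    boundary (Finsupp.single l n) =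
      n • ∑ i ∈ Finset.range l.length, Finsupp.single (l.eraseIdx i) ((-1 : ℤ) ^ i) := by
  simp [boundary]

variable {ρ} (hρ : ∀ u : R, IsUnit u → ρ u = 1)

include hρ

theorem Phi_boundary [Nontrivial R] (w : List (Submodule R (Fin 3 → R)) →₀ ℤ)
    (hw : ∀ l ∈ w.support, l ∈ CBTuples R 3 ∧ (l.length : ℤ) = 2 + 2) :
    Phi ρ (boundary w) = 0 := by
  rw [boundary, Finsupp.linearCombination_apply, Finsupp.sum, map_sum]
  refine Finset.sum_eq_zero fun l hl => ?_
  obtain ⟨⟨h1, B, hB⟩, h2⟩ := hw l hl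
  have h3 : l.length = 4 := by omega
  obtain ⟨a, b, c, d, rfl⟩ : ∃ a b c d, l = [a, b, c, d] := by
    match l, h3 with
    | [a, b, c, d], _ => exact ⟨a, b, c, d, rfl⟩
  have hv : ∀ W ∈ [a, b, c, d], ∃ m, W = val B m := by
    intro W hW
    obtain ⟨s, hs⟩ := hB W hW
    obtain ⟨_, h4, h5⟩ := h1 W hW
    exact exists_val B W h4 h5 s hs
  obtain ⟨m, rfl⟩ := hv a (by simp)
  obtain ⟨n, rfl⟩ := hv b (by simp)
  obtain ⟨k, rfl⟩ := hv c (by simp)
  obtain ⟨q, rfl⟩ := hv d (by simp)
  rw [map_smul]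
  have := cocycle_val hρ B m n k q
  have hz : Phi ρ (∑ i ∈ Finset.range [val B m, val B n, val B k, val B q].length,
      Finsupp.single ([val B m, val B n, val B k, val B q].eraseIdx i) ((-1 : ℤ) ^ i)) = 0 := by
    simp only [List.length_cons, List.length_nil, Finset.sum_range_succ, Finset.sum_range_zero,
      zero_add, map_add, Phi_single, List.eraseIdx, tl]
    simp only [pow_zero, one_smul, pow_succ, one_mul, mul_neg, mul_one, neg_neg, neg_smul,
      neg_eq_self']
    linear_combination this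
  rw [hz, smul_zero]

theorem not_vanishes [Nontrivial R] (z : List (Submodule R (Fin 3 → R)) →₀ ℤ)
    (hz : ∀ l ∈ z.support, l ∈ CBTuples R 3 ∧ (l.length : ℤ) = 2 + 1) (hb : boundary z = 0)
    (hΦ : Phi ρ z ≠ 0) : ¬ ReducedHomologyVanishes (CBTuples R 3) 2 := by
  intro h
  obtain ⟨w, hw, rfl⟩ := h z hz hb
  exact hΦ (Phi_boundary hρ w hw)

/-! ### evaluation on frames of lines -/

theorem tt_frame [Nontrivial R] (B : Basis (Fin 3) R (Fin 3 → R)) :
    tt ρ (span R {B 0}) (span R {B 1}) (span R {B 2}) =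
      cc ρ (span R {B 0}) (span R {B 1}) (span R {B 2}) := by
  have := tt_val hρ B (false, 0) (false, 1) (false, 2)
  have h2 : tau (false, 0) (false, 1) (false, 2) = vC := by decide +kernel
  rw [h2, LL_vC ρ B (i := 0) (j := 1) (k := 2) (by decide) (by decide) (by decide)] at this
  exact this

theorem det3_ref (B : Basis (Fin 3) R (Fin 3 → R)) :
    det3 (red ρ (B 0)) (red ρ (B 1)) (ref ρ (span R {B 0} ⊔ span R {B 1})) = 1 := by
  have s01 : span R {B 0} ⊔ span R {B 1} = span R {B 0, B 1} := by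
    rw [← span_union]; rfl
  obtain ⟨α, β, h⟩ := ref_eq hρ B
  have h1 : det3 (red ρ (B 0)) (red ρ (B 1)) (red ρ (B 2)) = 1 := by
    rw [det3_red, hρ _ (isUnit_det3 B)]
  rw [s01, h, ← h1]
  simp only [det3, Pi.sub_apply, Pi.smul_apply, smul_eq_mul]
  ring

omit hρ in
theorem exists_basis (x y z : Fin 3 → R) (h : IsUnit (det3 x y z)) :
    ∃ B : Basis (Fin 3) R (Fin 3 → R), B 0 = x ∧ B 1 = y ∧ B 2 = z := by
  have h1 : IsUnit ((Pi.basisFun R (Fin 3)).det ![x, y, z]) := by
    rw [Basis.det_apply, Matrix.det_fin_three]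
    convert h using 1
    simp [Basis.toMatrix_apply, det3]
    ring
  obtain ⟨h2, h3⟩ := ((Pi.basisFun R (Fin 3)).is_basis_iff_det).2 h1
  exact ⟨Basis.mk h2 h3.ge, by simp, by simp, by simp⟩

omit hρ in
theorem mem_CB [Nontrivial R] (x y z : Fin 3 → R) (h : IsUnit (det3 x y z)) :
    [span R {x}, span R {y}, span R {z}] ∈ CBTuples R 3 := by
  obtain ⟨B, rfl, rfl, rfl⟩ := exists_basis x y z h
  have hl : ∀ W ∈ [span R {B 0}, span R {B 1}, span R {B 2}], ∃ i, W = ln B i := by
    intro W hW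
    simp only [List.mem_cons, List.not_mem_nil, or_false] at hW
    rcases hW with rfl | rfl | rfl
    exacts [⟨0, rfl⟩, ⟨1, rfl⟩, ⟨2, rfl⟩]
  refine ⟨fun W hW => ?_, B, fun W hW => ?_⟩
  · obtain ⟨i, rfl⟩ := hl W hW
    refine ⟨⟨_, isCompl_ln_pl B i⟩, ?_, ?_⟩
    · intro h
      have := self_mem_ln B i
      rw [h, mem_bot] at this
      exact B.ne_zero i this
    · intro h
      have : pl B i = ⊥ := by
        have h' := (isCompl_ln_pl B i).inf_eq_bot
        rwa [h, top_inf_eq] at h'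
      obtain ⟨j, hj⟩ := (by decide : ∀ i : Fin 3, ∃ j, j ≠ i) i
      have h3 : B j ∈ pl B i := by rw [mem_pl]; simp [hj]
      rw [this, mem_bot] at h3
      exact B.ne_zero j h3
  · obtain ⟨i, rfl⟩ := hl W hW
    exact ⟨{i}, by rw [Set.image_singleton]; rfl⟩

end Pool.Agent.RognesDis
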