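import Mathlib

/-!
# The ring `ℤ[(1 + √-11)/2]` is Euclidean
-/

namespace Pool.Agent.RognesDis

open QuadraticAlgebra

/-- `ℤ[ω]` with `ω² = ω - 3`, i.e. `ω = (1 + √-11)/2` -/
abbrev O11 : Type := QuadraticAlgebra ℤ (-3) 1

/-- the norm `N(x + yω) = x² + xy + 3y²` -/
def nm (z : O11) : ℤ := z.re ^ 2 + z.re * z.im + 3 * z.im ^ 2

theorem nm_mul (z w : O11) : nm (z * w) = nm z * nm w := by
  simp only [nm, re_mul, im_mul]
  ring

theorem four_nm (z : O11) : 4 * nm z = (2 * z.re + z.im) ^ 2 + 11 * z.im ^ 2 := by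
  unfold nm; ring

theorem nm_nonneg (z : O11) : 0 ≤ nm z := by
  have := four_nm z
  nlinarith [sq_nonneg (2 * z.re + z.im), sq_nonneg z.im]

theorem nm_pos {z : O11} (h : z ≠ 0) : 0 < nm z := by
  rcases lt_or_eq_of_le (nm_nonneg z) with h1 | h1
  · exact h1
  · exfalso
    apply h
    have h2 := four_nm z
    rw [← h1] at h2
    have h3 : z.im = 0 := by nlinarith [sq_nonneg (2 * z.re + z.im), sq_nonneg z.im]
    rw [h3] at h2
    have h4 : z.re = 0 := by nlinarith [sq_nonneg z.re]
    ext
    · simpa using h4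
    · simpa using h3

theorem nm_unit {u : O11} (h : IsUnit u) : u = 1 ∨ u = -1 := by
  obtain ⟨v, hv⟩ := h.exists_right_inv
  have h1 : nm u * nm v = 1 := by rw [← nm_mul, hv]; simp [nm]
  have h2 : nm u = 1 := by
    have := nm_nonneg u
    have := nm_nonneg v
    exact Int.eq_one_of_mul_eq_one_right (nm_nonneg u) h1
  have h3 := four_nm u
  rw [h2] at h3
  have h4 : u.im = 0 := by nlinarith [sq_nonneg (2 * u.re + u.im), sq_nonneg u.im]
  rw [h4] at h3
  have h5 : (u.re - 1) * (u.re + 1) = 0 := by nlinarith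
  rcases mul_eq_zero.1 h5 with h6 | h6
  · left
    ext
    · simp; omega
    · simpa using h4
  · right
    ext
    · simp; omega
    · simpa using h4

/-- the conjugate -/
def cj (z : O11) : O11 := ⟨z.re + z.im, -z.im⟩

theorem nm_cj (z : O11) : nm (cj z) = nm z := by
  simp only [nm, cj]; ring

theorem mul_cj (z : O11) : z * cj z = (nm z : O11) := by
  ext
  · rw [re_intCast, re_mul]; simp only [nm, cj]; push_cast; ring
  · rw [im_intCast, im_mul]; simp only [cj]; ring

/-- rounded quotient -/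
def quo (a b : O11) : O11 :=
  ⟨(2 * (a * cj b).re + ((a * cj b).im - nm b * ((2 * (a * cj b).im + nm b) / (2 * nm b))) + nm b) /
      (2 * nm b),
    (2 * (a * cj b).im + nm b) / (2 * nm b)⟩

theorem quo_zero (a : O11) : quo a 0 = 0 := by
  have : nm (0 : O11) = 0 := by simp [nm]
  ext <;> simp [quo, this]

theorem nm_rem_lt (a b : O11) (hb : b ≠ 0) : nm (a - b * quo a b) < nm b := by
  have hn := nm_pos hb
  set n := nm b with hn'
  set p := a * cj b with hp
  set q := quo a b with hq
  have hqim : q.im = (2 * p.im + n) / (2 * n) := rfl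
  have hqre : q.re = (2 * p.re + (p.im - n * q.im) + n) / (2 * n) := rfl
  have h1 : (a - b * q) * cj b = p - (n : O11) * q := by
    rw [hn', ← mul_cj, hp]; ring
  have h2 : nm (a - b * q) * n = nm (p - (n : O11) * q) := by
    rw [← h1, nm_mul, nm_cj]
  have a1 := Int.mul_ediv_add_emod (2 * p.im + n) (2 * n)
  have a2 := Int.emod_nonneg (2 * p.im + n) (show (2 * n) ≠ 0 by omega)
  have a3 := Int.emod_lt_of_pos (2 * p.im + n) (show 0 < 2 * n by omega)
  rw [← hqim] at a1
  have b1 := Int.mul_ediv_add_emod (2 * p.re + (p.im - n * q.im) + n) (2 * n)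
  have b2 := Int.emod_nonneg (2 * p.re + (p.im - n * q.im) + n) (show (2 * n) ≠ 0 by omega)
  have b3 := Int.emod_lt_of_pos (2 * p.re + (p.im - n * q.im) + n) (show 0 < 2 * n by omega)
  rw [← hqre] at b1
  have h3 : 4 * nm (p - (n : O11) * q) =
      (2 * (p.re - n * q.re) + (p.im - n * q.im)) ^ 2 + 11 * (p.im - n * q.im) ^ 2 := by
    rw [four_nm]
    simp
  set s := p.im - n * q.im with hs
  set d := 2 * (p.re - n * q.re) + s with hd
  have s1 : 2 * s ≤ n := by nlinarith
  have s2 : -n ≤ 2 * s := by nlinarith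
  have d1 : d ≤ n := by nlinarith
  have d2 : -n ≤ d := by nlinarith
  have e1 : (2 * s) ^ 2 ≤ n ^ 2 := sq_le_sq' s2 s1
  have e2 : d ^ 2 ≤ n ^ 2 := sq_le_sq' d2 d1
  have h4 : nm (a - b * q) * n < n * n := by
    rw [h2]; nlinarith
  exact lt_of_mul_lt_mul_right h4 hn.le

/-- `ℤ[(1 + √-11)/2]` is a Euclidean domain (for the norm). -/
@[instance_reducible]
def euclid : EuclideanDomain O11 where
  toCommRing := QuadraticAlgebra.instCommRing
  exists_pair_ne := ⟨0, 1, by decide⟩
  quotient := quo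
  quotient_zero := quo_zero
  remainder a b := a - b * quo a b
  quotient_mul_add_remainder_eq a b := by ring
  r a b := (nm a).natAbs < (nm b).natAbs
  r_wellFounded := (measure fun a : O11 => (nm a).natAbs).wf
  remainder_lt a b hb := by
    have h1 := nm_rem_lt a b hb
    have h2 := nm_nonneg (a - b * quo a b)
    change (nm (a - b * quo a b)).natAbs < (nm b).natAbs
    omega
  mul_left_not_lt a b hb := by
    change ¬ (nm (a * b)).natAbs < (nm a).natAbs
    rw [nm_mul, Int.natAbs_mul, not_lt]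
    have := nm_pos hb
    exact Nat.le_mul_of_pos_right _ (by omega)

end Pool.Agent.RognesDis
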