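import Mathlib
import Pool.Agent.Lib_MP_ca431a_dis.Detect
import Pool.Agent.Lib_MP_ca431a_dis.Euclid

/-!
# The 2-sphere in `CB_3(ℤ[(1 + √-11)/2])`
-/

namespace Pool.Agent.RognesDis

open Module Submodule Pool.Agent.Rognes QuadraticAlgebra

/-- the field with four elements -/
abbrev F4 : Type := QuadraticAlgebra (ZMod 2) 1 1

/-- reduction modulo two -/
def rho : O11 →+* F4 where
  toFun z := ⟨(z.re : ZMod 2), (z.im : ZMod 2)⟩
  map_one' := by ext <;> simp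
  map_zero' := by ext <;> simp
  map_add' z w := by ext <;> simp
  map_mul' z w := by
    have h : (-3 : ZMod 2) = 1 := by decide
    ext
    · simp only [re_mul]; push_cast; rw [h]
    · simp only [im_mul]; push_cast; ring

theorem rho_unit (u : O11) (hu : IsUnit u) : rho u = 1 := by
  rcases nm_unit hu with rfl | rfl
  · exact map_one rho
  · rw [map_neg, map_one]; decide

/-- the seven vectors -/
def vv : Fin 7 → (Fin 3 → O11) :=
  ![![0, 0, 1], ![0, ⟨0, 1⟩, -1], ![0, 1, 0], ![⟨0, 1⟩, 0, 1], ![1, -1, ⟨1, -1⟩], ![1, 0, 0],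
    ![1, 1, 0]]

def tri : Fin 10 → Fin 7 × Fin 7 × Fin 7 :=
  ![(0, 2, 4), (0, 2, 5), (0, 4, 5), (1, 2, 4), (1, 2, 6), (1, 4, 6), (2, 3, 5), (2, 3, 6),
    (3, 4, 5), (3, 4, 6)]

def sgn : Fin 10 → ℤ := ![1, -1, 1, -1, 1, -1, -1, 1, -1, 1]

theorem det_tri (t : Fin 10) :
    det3 (vv (tri t).1) (vv (tri t).2.1) (vv (tri t).2.2) = 1 ∨
      det3 (vv (tri t).1) (vv (tri t).2.1) (vv (tri t).2.2) = -1 := by
  revert t
  decide

theorem isUnit_tri (t : Fin 10) :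
    IsUnit (det3 (vv (tri t).1) (vv (tri t).2.1) (vv (tri t).2.2)) := by
  rcases det_tri t with h | h <;> rw [h]
  · exact isUnit_one
  · exact isUnit_one.neg

/-- the seven lines -/
def WW (i : Fin 7) : Submodule O11 (Fin 3 → O11) := span O11 {vv i}

/-- the fundamental cycle of the sphere -/
noncomputable def zz : List (Submodule O11 (Fin 3 → O11)) →₀ ℤ :=
  ∑ t : Fin 10, Finsupp.single [WW (tri t).1, WW (tri t).2.1, WW (tri t).2.2] (sgn t)

theorem zz_support (l : List (Submodule O11 (Fin 3 → O11))) (hl : l ∈ zz.support) :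
    l ∈ CBTuples O11 3 ∧ (l.length : ℤ) = 2 + 1 := by
  obtain ⟨t, _, ht⟩ := Finsupp.mem_support_finsetSum l hl
  have h1 := Finsupp.support_single_subset ht
  rw [Finset.mem_singleton] at h1
  subst h1
  exact ⟨mem_CB _ _ _ (isUnit_tri t), by norm_num⟩

theorem bd3 {X : Type*} (a b c : X) (n : ℤ) :
    boundary (Finsupp.single [a, b, c] n) =
      Finsupp.single [b, c] n - Finsupp.single [a, c] n + Finsupp.single [a, b] n := by
  rw [boundary_single]
  simp only [List.length_cons, List.length_nil, Finset.sum_range_succ, Finset.sum_range_zero,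
    zero_add, List.eraseIdx, smul_add, Finsupp.smul_single, smul_eq_mul]
  simp only [pow_zero, pow_succ, mul_neg, mul_one, neg_neg, Finsupp.single_neg]
  abel

theorem boundary_zz : boundary zz = 0 := by
  unfold zz
  rw [map_sum]
  simp only [bd3, Fin.sum_univ_succ, Fin.sum_univ_zero, tri, sgn]
  simp [Finsupp.single_neg]
  abel

/-! ### evaluation of the cocycle -/

/-- the seven vectors modulo two -/
def XX (i : Fin 7) : Fin 3 → F4 := red rho (vv i)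

noncomputable def rr (i j : Fin 7) : Fin 3 → F4 := ref rho (WW i ⊔ WW j)

theorem isUnit_of (x : O11) (h : x = 1 ∨ x = -1) : IsUnit x := by
  rcases h with rfl | rfl
  · exact isUnit_one
  · exact isUnit_one.neg

theorem vec_WW (i : Fin 7) : vec rho (WW i) = XX i := by
  obtain ⟨j, k, h⟩ := (by decide : ∀ i : Fin 7, ∃ j k : Fin 7,
    det3 (vv i) (vv j) (vv k) = 1 ∨ det3 (vv i) (vv j) (vv k) = -1) i
  obtain ⟨B, h0, h1, h2⟩ := exists_basis _ _ _ (isUnit_of _ h)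
  have := vec_eq rho_unit B
  rw [h0] at this
  exact this

theorem tt_WW (i j k : Fin 7)
    (h : det3 (vv i) (vv j) (vv k) = 1 ∨ det3 (vv i) (vv j) (vv k) = -1) :
    tt rho (WW i) (WW j) (WW k) =
      det3 (XX i + XX j) (XX k) (rr i j) + det3 (XX j + XX k) (XX i) (rr j k) +
        det3 (XX i + XX k) (XX j) (rr i k) := by
  obtain ⟨B, h0, h1, h2⟩ := exists_basis _ _ _ (isUnit_of _ h)
  have := tt_frame rho_unit B
  rw [h0, h1, h2] at this
  change tt rho (WW i) (WW j) (WW k) = cc rho (WW i) (WW j) (WW k) at this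
  rw [this]
  unfold cc ee rr
  rw [vec_WW, vec_WW, vec_WW]

theorem det_rr (i j k : Fin 7)
    (h : det3 (vv i) (vv j) (vv k) = 1 ∨ det3 (vv i) (vv j) (vv k) = -1) :
    det3 (XX i) (XX j) (rr i j) = 1 := by
  obtain ⟨B, h0, h1, h2⟩ := exists_basis _ _ _ (isUnit_of _ h)
  have := det3_ref rho_unit B
  rw [h0, h1] at this
  exact this

/-- cross product -/
def cr (x y : Fin 3 → F4) : Fin 3 → F4 :=
  ![x 1 * y 2 - x 2 * y 1, x 2 * y 0 - x 0 * y 2, x 0 * y 1 - x 1 * y 0]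

theorem edge (a b c c' : Fin 7) (s : F4)
    (h : det3 (vv a) (vv b) (vv c) = 1 ∨ det3 (vv a) (vv b) (vv c) = -1)
    (hs : ∀ i, cr (XX a + XX b) (XX c) i + cr (XX a + XX b) (XX c') i = s * cr (XX a) (XX b) i) :
    det3 (XX a + XX b) (XX c) (rr a b) + det3 (XX a + XX b) (XX c') (rr a b) = s := by
  have h1 := det_rr a b c h
  have h2 : ∀ x y r : Fin 3 → F4, det3 x y r = cr x y 0 * r 0 + cr x y 1 * r 1 + cr x y 2 * r 2 :=
    fun _ _ _ => rfl
  rw [h2] at h1 ⊢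
  rw [h2]
  linear_combination hs 0 * rr a b 0 + hs 1 * rr a b 1 + hs 2 * rr a b 2 + s * h1

theorem Phi_zz : Phi rho zz = 1 := by
  have e02 := edge 0 2 4 5 ⟨0, 1⟩ (by decide) (by decide)
  have e04 := edge 0 4 2 5 ⟨0, 1⟩ (by decide) (by decide)
  have e05 := edge 0 5 2 4 ⟨0, 1⟩ (by decide) (by decide)
  have e12 := edge 1 2 4 6 ⟨0, 1⟩ (by decide) (by decide)
  have e14 := edge 1 4 2 6 ⟨0, 1⟩ (by decide) (by decide)
  have e16 := edge 1 6 2 4 ⟨0, 1⟩ (by decide) (by decide)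
  have e23 := edge 2 3 5 6 ⟨1, 0⟩ (by decide) (by decide)
  have e24 := edge 2 4 0 1 ⟨0, 1⟩ (by decide) (by decide)
  have e25 := edge 2 5 0 3 ⟨0, 1⟩ (by decide) (by decide)
  have e26 := edge 2 6 1 3 ⟨0, 1⟩ (by decide) (by decide)
  have e34 := edge 3 4 5 6 ⟨0, 1⟩ (by decide) (by decide)
  have e35 := edge 3 5 2 4 ⟨1, 1⟩ (by decide) (by decide)
  have e36 := edge 3 6 2 4 ⟨1, 1⟩ (by decide) (by decide)
  have e45 := edge 4 5 0 3 ⟨0, 1⟩ (by decide) (by decide)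
  have e46 := edge 4 6 1 3 ⟨0, 1⟩ (by decide) (by decide)
  have t0 := tt_WW 0 2 4 (by decide)
  have t1 := tt_WW 0 2 5 (by decide)
  have t2 := tt_WW 0 4 5 (by decide)
  have t3 := tt_WW 1 2 4 (by decide)
  have t4 := tt_WW 1 2 6 (by decide)
  have t5 := tt_WW 1 4 6 (by decide)
  have t6 := tt_WW 2 3 5 (by decide)
  have t7 := tt_WW 2 3 6 (by decide)
  have t8 := tt_WW 3 4 5 (by decide)
  have t9 := tt_WW 3 4 6 (by decide)
  have hz : Phi rho zz = tt rho (WW 0) (WW 2) (WW 4) + tt rho (WW 0) (WW 2) (WW 5) +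
      tt rho (WW 0) (WW 4) (WW 5) + tt rho (WW 1) (WW 2) (WW 4) + tt rho (WW 1) (WW 2) (WW 6) +
      tt rho (WW 1) (WW 4) (WW 6) + tt rho (WW 2) (WW 3) (WW 5) + tt rho (WW 2) (WW 3) (WW 6) +
      tt rho (WW 3) (WW 4) (WW 5) + tt rho (WW 3) (WW 4) (WW 6) := by
    unfold zz
    rw [map_sum]
    simp only [Phi_single, tl, Fin.sum_univ_succ, Fin.sum_univ_zero, tri, sgn]
    simp [neg_eq_self']
    ring
  have hsum : (⟨0, 1⟩ + ⟨0, 1⟩ + ⟨0, 1⟩ + ⟨0, 1⟩ + ⟨0, 1⟩ + ⟨0, 1⟩ + ⟨1, 0⟩ + ⟨0, 1⟩ + ⟨0, 1⟩ +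
    ⟨0, 1⟩ + ⟨0, 1⟩ + ⟨1, 1⟩ + ⟨1, 1⟩ + ⟨0, 1⟩ + ⟨0, 1⟩ : F4) = 1 := by decide
  rw [hz, t0, t1, t2, t3, t4, t5, t6, t7, t8, t9, ← hsum]
  linear_combination e02 + e04 + e05 + e12 + e14 + e16 + e23 + e24 + e25 + e26 + e34 + e35 + e36 +
    e45 + e46

/-- **`H̃_2(CB_3(ℤ[(1 + √-11)/2])) ≠ 0`.** -/
theorem main : ¬ ReducedHomologyVanishes (CBTuples O11 3) 2 := by
  refine not_vanishes rho_unit zz zz_support boundary_zz ?_
  rw [Phi_zz]
  decide

end Pool.Agent.RognesDis
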